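import Mathlib
import Pool.Agent.J4H39.K0

set_option autoImplicit false

/-! Coupling of two tuples of states. -/

namespace Pool.Agent.J4H67.KT

open Finset
open Pool.Agent.J4H39
open Pool.Agent.H499R2.CO (rho rho_nonneg)

/-- integral representation of a compatible tuple of states -/
theorem repr_tup {K a b : ℕ} {s : Fin K → ℤ × ℤ} (hs : GK a b s) (hc : Cm s) :
    ∃ (E : ℕ) (c : ℤ) (c₁ : Fin K → ℤ), E ≤ a ∧ (∀ i, (-(s i).1).toNat ≤ E) ∧ 0 ≤ c ∧ c < 2 * 3 ^ E ∧ c % 2 = 0 ∧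
      ∀ i, Rel (s i) c (c₁ i) := by
  obtain ⟨y₀, hy₀⟩ := hc
  set E : ℕ := univ.sup (fun i => (-(s i).1).toNat) with hE
  have hEi : ∀ i, (-(s i).1).toNat ≤ E := fun i => le_sup (f := fun i => (-(s i).1).toNat) (mem_univ i)
  have hEa : E ≤ a := by
    rw [hE]
    apply Finset.sup_le
    intro i _
    have := (hs i).1
    rw [abs_le] at this
    omega
  have h3 : (0 : ℤ) < 3 ^ E := by positivity
  set c₀ : ℤ := y₀ % 3 ^ E with hc₀
  have h1 : 0 ≤ c₀ := Int.emod_nonneg _ h3.ne'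
  have h2 : c₀ < 3 ^ E := Int.emod_lt_of_pos _ h3
  have hodd := pow3_odd E
  have hdiv : y₀ % 3 ^ E + 3 ^ E * (y₀ / 3 ^ E) = y₀ := Int.emod_add_mul_ediv y₀ (3 ^ E)
  have key : ∀ u : ℤ, ∀ i, ∃ y' : ℤ, Rel (s i) (c₀ + 3 ^ E * u) y' := by
    intro u i
    obtain ⟨y', hy'⟩ := hy₀ i
    have := rel_shift' hy' (hEi i) (u - y₀ / 3 ^ E)
    have e : y₀ + 3 ^ E * (u - y₀ / 3 ^ E) = c₀ + 3 ^ E * u := by
      rw [hc₀]; linear_combination -hdiv
    rw [e] at this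
    exact this
  rcases Int.emod_two_eq_zero_or_one c₀ with h | h
  · choose c₁ hc₁ using key 0
    refine ⟨E, c₀, c₁, hEa, hEi, h1, by omega, h, fun i => ?_⟩
    have := hc₁ i
    rw [mul_zero, add_zero] at this
    exact this
  · choose c₁ hc₁ using key 1
    refine ⟨E, c₀ + 3 ^ E, c₁, hEa, hEi, by omega, by omega, by omega, fun i => ?_⟩
    have := hc₁ i
    rw [mul_one] at this
    exact this

theorem repr_bd {s : ℤ × ℤ} {a b E : ℕ} (h : GS a b s) (hE : E ≤ a) {c c₁ : ℤ} (h0 : 0 ≤ c) (h1 : c < 2 * 3 ^ E)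
    (h2 : Rel s c c₁) : |c₁| ≤ 4 ^ (2 * a + b + 2) := by
  unfold J4H39.Rel at h2
  obtain ⟨ha, hb⟩ := h
  rw [abs_le] at ha
  have e2 : s.1.toNat ≤ a := by omega
  have p1 : (3 : ℤ) ^ E ≤ 4 ^ a :=
    (pow_le_pow_left₀ (by norm_num) (by norm_num) _).trans (pow_le_pow_right₀ (by norm_num) hE)
  have p2 : (3 : ℤ) ^ s.1.toNat ≤ 4 ^ a :=
    (pow_le_pow_left₀ (by norm_num) (by norm_num) _).trans (pow_le_pow_right₀ (by norm_num) e2)
  have q1 : (1 : ℤ) ≤ 3 ^ (-s.1).toNat := one_le_pow₀ (by norm_num)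
  have q4a : (1 : ℤ) ≤ 4 ^ a := one_le_pow₀ (by norm_num)
  have q4b : (1 : ℤ) ≤ 4 ^ b := one_le_pow₀ (by norm_num)
  have hc : |c| ≤ 2 * 4 ^ a := by rw [abs_of_nonneg h0]; linarith
  have h3 : |c₁| ≤ |3 ^ (-s.1).toNat * c₁| := by
    rw [abs_mul, abs_of_pos (by positivity : (0 : ℤ) < 3 ^ (-s.1).toNat)]
    exact le_mul_of_one_le_left (abs_nonneg _) q1
  refine h3.trans ?_
  rw [h2]
  refine (abs_add_le _ _).trans ?_
  have h4 : |3 ^ s.1.toNat * c| ≤ 4 ^ a * (2 * 4 ^ a) := by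
    rw [abs_mul, abs_of_pos (by positivity : (0 : ℤ) < 3 ^ s.1.toNat)]
    exact mul_le_mul p2 hc (abs_nonneg _) (by positivity)
  have h5 : (4 : ℤ) ^ (2 * a + b + 2) = 16 * (4 ^ a * 4 ^ a * 4 ^ b) := by ring
  rw [h5]
  have h6 : (4 : ℤ) ^ a * 4 ^ a ≤ 4 ^ a * 4 ^ a * 4 ^ b := le_mul_of_one_le_right (by positivity) q4b
  have h7 : (4 : ℤ) ^ b ≤ 4 ^ a * 4 ^ a * 4 ^ b := by
    apply le_mul_of_one_le_left (by positivity)
    exact one_le_mul_of_one_le_of_one_le q4a q4a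
  linarith

theorem base_bd {a E : ℕ} (hE : E ≤ a) {c : ℤ} (h0 : 0 ≤ c) (h1 : c < 2 * 3 ^ E) : |c| ≤ 4 ^ (a + 1) := by
  have p1 : (3 : ℤ) ^ E ≤ 4 ^ a :=
    (pow_le_pow_left₀ (by norm_num) (by norm_num) _).trans (pow_le_pow_right₀ (by norm_num) hE)
  rw [abs_of_nonneg h0, pow_succ]
  have q4a : (1 : ℤ) ≤ 4 ^ a := one_le_pow₀ (by norm_num)
  linarith

/-- the companion of `3 ^ F * m + c` -/
theorem rel_aff {s : ℤ × ℤ} {c c₁ : ℤ} {F : ℕ} (h : Rel s c c₁) (hF : (-s.1).toNat ≤ F) (m : ℤ) :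
    Rel s (3 ^ F * m + c) (3 ^ (s.1.toNat + (F - (-s.1).toNat)) * m + c₁) := by
  unfold J4H39.Rel at h ⊢
  have e : (3 : ℤ) ^ (-s.1).toNat * (3 ^ (s.1.toNat + (F - (-s.1).toNat)) * m) = 3 ^ s.1.toNat * (3 ^ F * m) := by
    rw [← mul_assoc, ← mul_assoc, ← pow_add, ← pow_add]
    congr 2
    omega
  rw [mul_add, e, h]; ring

theorem per_MrgK {S : Type*} (stp : S → ℕ → S) (k : ℕ) (s s' : S) {A c c' : ℤ} : ∀ n, k ≤ n →
    Per n (fun m => ¬ Mrg stp k s s' (A * m + c) (A * m + c')) := by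
  intro n hkn m u
  simp only
  have key : ∀ m u, Mrg stp k s s' (A * m + c) (A * m + c') →
      Mrg stp k s s' (A * (m + 2 ^ n * u) + c) (A * (m + 2 ^ n * u) + c') := by
    rintro m u ⟨t₀, h0, h1, h2, h3⟩
    obtain ⟨d, hd⟩ := Nat.exists_eq_add_of_le (h0.trans hkn)
    refine ⟨t₀, h0, ?_, ?_, ?_⟩
    · rw [show A * (m + 2 ^ n * u) + c = (A * m + c) + 2 ^ t₀ * (2 ^ d * A * u) by rw [hd, pow_add]; ring,
        show A * (m + 2 ^ n * u) + c' = (A * m + c') + 2 ^ t₀ * (2 ^ d * A * u) by rw [hd, pow_add]; ring,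
        T_add, T_add, h1, h2]
    · rw [show A * (m + 2 ^ n * u) + c = (A * m + c) + 2 ^ t₀ * (2 ^ d * A * u) by rw [hd, pow_add]; ring,
        show A * (m + 2 ^ n * u) + c' = (A * m + c') + 2 ^ t₀ * (2 ^ d * A * u) by rw [hd, pow_add]; ring,
        od_add, od_add, h2]
    · rw [show A * (m + 2 ^ n * u) + c = (A * m + c) + 2 ^ t₀ * (2 ^ d * A * u) by rw [hd, pow_add]; ring,
        show A * (m + 2 ^ n * u) + c' = (A * m + c') + 2 ^ t₀ * (2 ^ d * A * u) by rw [hd, pow_add]; ring,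
        per_rn stp s (le_refl t₀), per_rn stp s' (le_refl t₀), h3]
  apply propext
  apply not_congr
  constructor
  · intro h
    have := key _ (-u) h
    rw [show m + 2 ^ n * u + 2 ^ n * (-u) = m by ring] at this
    exact this
  · exact key m u

/-- merging of the bases and of a pair of companions gives the equality of the states -/
theorem eq_of_merge {k : ℕ} {s s' : ℤ × ℤ} {y y' z z' : ℤ} (h : Rel s y y') (h' : Rel s' z z') {r₁ r₂ : ℤ}
    (g₁ : Rel (0, r₁) y z) (g₂ : Rel (s'.1 - s.1, r₂) y' z') (e₁ : rn stP k (0, r₁) y = (0, 0))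
    (e₂ : rn stP k (s'.1 - s.1, r₂) y' = (0, 0)) : rn stP k s y = rn stP k s' z := by
  obtain ⟨a1, a2⟩ := merge_of_rn g₁ e₁
  obtain ⟨b1, b2⟩ := merge_of_rn g₂ e₂
  simp only at a2 b2
  obtain ⟨c1, c2⟩ := rel_rn h k
  obtain ⟨d1, d2⟩ := rel_rn h' k
  rw [← a1, ← b1] at d1
  apply rel_eq c1 d1
  rw [c2, d2]
  omega

theorem t_CPL : S_CPL := by
  intro C hC hrate K k n a b d hk hkn s s' hs hs' hcm hcm' hd
  obtain ⟨E, c, c₁, hEa, hE, h0, h1, h2, h3⟩ := repr_tup hs hcm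
  obtain ⟨E', c', c₁', hEa', hE', h0', h1', h2', h3'⟩ := repr_tup hs' hcm'
  have bc := base_bd hEa h0 h1
  have bc' := base_bd hEa' h0' h1'
  have bc₁ : ∀ i, |c₁ i| ≤ 4 ^ (2 * a + b + 2) := fun i => repr_bd (hs i) hEa h0 h1 (h3 i)
  have bc₁' : ∀ i, |c₁' i| ≤ 4 ^ (2 * a + b + 2) := fun i => repr_bd (hs' i) hEa' h0' h1' (h3' i)
  refine ⟨3 ^ (E + E'), c, c', pow3_odd _, by omega, ?_⟩
  set F := E + E' with hF
  set Δ : Fin K → ℤ := fun i => (s' i).1 - (s i).1 with hΔ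
  set r₁ : ℤ := c' - c with hr₁
  set r₂ : Fin K → ℤ := fun i => 3 ^ (-Δ i).toNat * c₁' i - 3 ^ (Δ i).toNat * c₁ i with hr₂
  set f : Fin K → ℕ := fun i => (s i).1.toNat + (F - (-(s i).1).toNat) with hf
  set f' : Fin K → ℕ := fun i => (s' i).1.toNat + (F - (-(s' i).1).toNat) with hf'
  set y' : Fin K → ℤ → ℤ := fun i m => 3 ^ f i * m + c₁ i with hy'
  set z' : Fin K → ℤ → ℤ := fun i m => 3 ^ f' i * m + c₁' i with hz'
  have R1 : ∀ i m, Rel (s i) (3 ^ F * m + c) (y' i m) := fun i m =>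
    rel_aff (h3 i) ((hE i).trans (by omega)) m
  have R2 : ∀ i m, Rel (s' i) (3 ^ F * m + c') (z' i m) := fun i m =>
    rel_aff (h3' i) ((hE' i).trans (by omega)) m
  have R3 : ∀ m, Rel (0, r₁) (3 ^ F * m + c) (3 ^ F * m + c') := by
    intro m
    unfold J4H39.Rel
    simp only [neg_zero, Int.toNat_zero, pow_zero, one_mul]
    rw [hr₁]; ring
  have R4 : ∀ i m, Rel (Δ i, r₂ i) (y' i m) (z' i m) := by
    intro i m
    unfold J4H39.Rel
    simp only [hy', hz', hr₂]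
    have e1 := hE i
    have e1' := hE' i
    have e : (-Δ i).toNat + f' i = (Δ i).toNat + f i := by
      simp only [hΔ, hf, hf']
      omega
    have e2 : (3 : ℤ) ^ (-Δ i).toNat * (3 ^ f' i * m) = 3 ^ (Δ i).toNat * (3 ^ f i * m) := by
      rw [← mul_assoc, ← mul_assoc, ← pow_add, ← pow_add, e]
    rw [mul_add, e2]; ring
  have hcov : ∀ m, ¬ Mrg stK k s s' (3 ^ F * m + c) (3 ^ F * m + c') →
      rn stP k (0, r₁) (3 ^ F * m + c) ≠ (0, 0) ∨ ∃ i ∈ (univ : Finset (Fin K)), rn stP k (Δ i, r₂ i) (y' i m) ≠ (0, 0) := by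
    intro m hm
    by_contra hcon
    push Not at hcon
    obtain ⟨g1, g2⟩ := hcon
    apply hm
    obtain ⟨a1, a2⟩ := merge_of_rn (R3 m) g1
    simp only at a2
    refine ⟨k, le_rfl, a1, by omega, ?_⟩
    rw [rn_stK, rn_stK]
    funext i
    exact eq_of_merge (R1 i m) (R2 i m) (R3 m) (R4 i m) g1 (g2 i (mem_univ i))
  rw [pb_per hkn (per_MrgK stK k s s' k le_rfl)]
  refine (pb_mono hcov).trans ((pb_or _ _ _).trans ?_)
  have p1 : pb k (fun m => rn stP k (0, r₁) (3 ^ F * m + c) ≠ (0, 0)) = ns k (0, r₁) :=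
    pb_affine (per_ns k (0, r₁)) (pow3_odd _) c
  have p2 : ∀ i, pb k (fun m => rn stP k (Δ i, r₂ i) (y' i m) ≠ (0, 0)) = ns k (Δ i, r₂ i) := fun i =>
    pb_affine (per_ns k (Δ i, r₂ i)) (pow3_odd _) (c₁ i)
  have p3 := pb_exists (univ : Finset (Fin K)) k (fun i m => rn stP k (Δ i, r₂ i) (y' i m) ≠ (0, 0))
  rw [p1]
  set u := 4 * a + b + 3 with hu
  have hrho : 0 ≤ rho k := rho_nonneg k
  have hda : ∀ i, |Δ i| ≤ 2 * a := by
    intro i
    rw [hΔ]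
    have := (hs i).1
    have := (hs' i).1
    refine (abs_sub _ _).trans ?_
    linarith
  have m1 : |(r₁ : ℝ)| ≤ 4 ^ u := by
    have : |r₁| ≤ 4 ^ u := by
      rw [hr₁]
      refine (abs_sub _ _).trans ?_
      have : (4 : ℤ) ^ (a + 1) * 4 ≤ 4 ^ u := by
        rw [← pow_succ]
        exact pow_le_pow_right₀ (by norm_num) (by omega)
      have h4 : (0 : ℤ) < 4 ^ (a + 1) := by positivity
      linarith
    exact_mod_cast this
  have m2 : ∀ i, |(r₂ i : ℝ)| ≤ 4 ^ u := by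
    intro i
    have : |r₂ i| ≤ 4 ^ u := by
      simp only [hr₂]
      refine (abs_sub _ _).trans ?_
      have hdi := hda i
      rw [abs_le] at hdi
      have t1 : (3 : ℤ) ^ (-Δ i).toNat ≤ 4 ^ (2 * a) :=
        (pow_le_pow_left₀ (by norm_num) (by norm_num) _).trans (pow_le_pow_right₀ (by norm_num) (by omega))
      have t2 : (3 : ℤ) ^ (Δ i).toNat ≤ 4 ^ (2 * a) :=
        (pow_le_pow_left₀ (by norm_num) (by norm_num) _).trans (pow_le_pow_right₀ (by norm_num) (by omega))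
      have t3 : |3 ^ (-Δ i).toNat * c₁' i| ≤ 4 ^ (2 * a) * 4 ^ (2 * a + b + 2) := by
        rw [abs_mul, abs_of_pos (by positivity : (0 : ℤ) < 3 ^ (-Δ i).toNat)]
        exact mul_le_mul t1 (bc₁' i) (abs_nonneg _) (by positivity)
      have t4 : |3 ^ (Δ i).toNat * c₁ i| ≤ 4 ^ (2 * a) * 4 ^ (2 * a + b + 2) := by
        rw [abs_mul, abs_of_pos (by positivity : (0 : ℤ) < 3 ^ (Δ i).toNat)]
        exact mul_le_mul t2 (bc₁ i) (abs_nonneg _) (by positivity)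
      have t5 : (4 : ℤ) ^ u = 4 * (4 ^ (2 * a) * 4 ^ (2 * a + b + 2)) := by rw [hu]; ring
      have t6 : (0 : ℤ) < 4 ^ (2 * a) * 4 ^ (2 * a + b + 2) := by positivity
      linarith
    exact_mod_cast this
  have q1 := hrate k hk 0 u r₁ m1
  have q2 : ∀ i, ns k (Δ i, r₂ i) ≤ C * √ (1 + (Δ i : ℝ) ^ 2 + u) * rho k := fun i => hrate k hk (Δ i) u (r₂ i) (m2 i)
  have mono : ∀ D : ℤ, |D| ≤ d → C * √ (1 + (D : ℝ) ^ 2 + u) * rho k ≤ C * √ (1 + (d : ℝ) ^ 2 + u) * rho k := by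
    intro D hD
    apply mul_le_mul_of_nonneg_right _ hrho
    apply mul_le_mul_of_nonneg_left _ hC.le
    apply Real.sqrt_le_sqrt
    have h3 : |(D : ℝ)| ≤ d := by exact_mod_cast hD
    have h4 : (D : ℝ) ^ 2 ≤ (d : ℝ) ^ 2 := by
      rw [← sq_abs]
      exact pow_le_pow_left₀ (abs_nonneg _) h3 2
    linarith
  have q3 := mono 0 (by simp)
  have q4 : ∑ i ∈ (univ : Finset (Fin K)), pb k (fun m => rn stP k (Δ i, r₂ i) (y' i m) ≠ (0, 0)) ≤
      ∑ i ∈ (univ : Finset (Fin K)), C * √ (1 + (d : ℝ) ^ 2 + u) * rho k := by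
    apply sum_le_sum
    intro i _
    rw [p2 i]
    exact (q2 i).trans (mono (Δ i) (hd i))
  rw [sum_const, card_univ, Fintype.card_fin, nsmul_eq_mul] at q4
  have := p3.trans q4
  linarith

end Pool.Agent.J4H67.KT
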