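import Mathlib
import Pool.Agent.J4H67.KT.Cpl

set_option autoImplicit false

/-! Exits, typical words and the digit bound for tuples. -/

namespace Pool.Agent.J4H67.KT

open Finset Real
open Pool.Agent.J4H39
open Pool.Agent.H499R2.CO (rho rho_nonneg)

/-- from `y` to the integral representation -/
theorem pb_reprK {N n a b : ℕ} {P Q : ℤ → Prop} {s : Fin N → ℤ × ℤ} (hs : GK a b s) (hc : Cm s) (hP : Per n P)
    (hQ : Per n Q) (h : ∀ (y : ℤ) (y' : Fin N → ℤ), (∀ i, J4H39.Rel (s i) y (y' i)) → P y → ¬ Q y → ∃ i, Q (y' i)) :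
    pb n P ≤ (N + 1) * pb n Q := by
  obtain ⟨E, c, c₁, _, hE, _, _, _, h3⟩ := repr_tup hs hc
  rw [← pb_affine hP (pow3_odd E) c]
  have h4 : ∀ m, P (3 ^ E * m + c) → Q (3 ^ E * m + c) ∨ ∃ i ∈ (univ : Finset (Fin N)),
      Q (3 ^ ((s i).1.toNat + (E - (-(s i).1).toNat)) * m + c₁ i) := by
    intro m hm
    by_cases hq : Q (3 ^ E * m + c)
    · exact Or.inl hq
    · obtain ⟨i, hi⟩ := h _ (fun i => 3 ^ ((s i).1.toNat + (E - (-(s i).1).toNat)) * m + c₁ i)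
        (fun i => rel_aff (h3 i) (hE i) m) hm hq
      exact Or.inr ⟨i, mem_univ i, hi⟩
  refine (pb_mono h4).trans ((pb_or _ _ _).trans ?_)
  have h5 := pb_exists (univ : Finset (Fin N)) n
    (fun i m => Q (3 ^ ((s i).1.toNat + (E - (-(s i).1).toNat)) * m + c₁ i))
  rw [pb_affine hQ (pow3_odd E) c]
  have h6 : ∑ i ∈ (univ : Finset (Fin N)), pb n (fun m => Q (3 ^ ((s i).1.toNat + (E - (-(s i).1).toNat)) * m + c₁ i)) =
      N * pb n Q := by
    rw [sum_congr rfl (fun i _ => pb_affine hQ (pow3_odd ((s i).1.toNat + (E - (-(s i).1).toNat))) (c₁ i))]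
    rw [sum_const, card_univ, Fintype.card_fin, nsmul_eq_mul]
  rw [h6] at h5
  linarith

theorem per_rnK {N : ℕ} (s : Fin N → ℤ × ℤ) (R : (Fin N → ℤ × ℤ) → Prop) (t : ℕ) : Per t (fun y => R (rn stK t s y)) := by
  intro x u
  simp only
  rw [per_rn stK s (le_refl t) x u]

theorem exit_oneK {N : ℕ} {s : Fin N → ℤ × ℤ} {a b n l δ : ℕ} (hs : GK a b s) {y : ℤ} {y' : Fin N → ℤ}
    (h : ∀ i, J4H39.Rel (s i) y (y' i)) (hx : Gd n (4 ^ l : ℕ) δ y) (hy : ∀ i, Gd n (4 ^ l : ℕ) δ (y' i)) {t : ℕ}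
    (ht : t ≤ n) : GK (a + δ) (a + 2 * δ + b + l + 1) (rn stK t s y) := by
  intro i
  rw [rn_stK_apply]
  exact exit_one (hs i) (h i) hx (hy i) ht

theorem exit_WsK {N : ℕ} {s : Fin N → ℤ × ℤ} {a b n l δ : ℕ} (hs : GK a b s) (hc : Cm s) (k : ℕ) :
    Ws n k (fun t y => id1 (¬ (GK (a + δ) (a + 2 * δ + b + l + 1) (rn stK t s y) ∧ Cm (rn stK t s y)))) ≤
      2 * ((N + 1) * pb n (fun y => ¬ Gd n (4 ^ l : ℕ) δ y)) := by
  set R : ℕ → ℤ → Prop := fun t y => ¬ (GK (a + δ) (a + 2 * δ + b + l + 1) (rn stK t s y) ∧ Cm (rn stK t s y)) with hR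
  have hRper : ∀ t, Per t (R t) := fun t =>
    per_rnK s (fun s' => ¬ (GK (a + δ) (a + 2 * δ + b + l + 1) s' ∧ Cm s')) t
  have h1 := Ws_le n k hRper (Q := fun y => ∃ t, t < n ∧ R t y) (fun t ht y _ _ h => ⟨t, ht, h⟩)
  refine h1.trans ?_
  have hPper : Per n (fun y => ∃ t, t < n ∧ R t y) := by
    intro x u
    simp only
    apply propext
    apply exists_congr
    intro t
    apply and_congr_right
    intro ht
    rw [((hRper t).mono ht.le) x u]
  have h2 := pb_reprK hs hc hPper (per_nGd n (4 ^ l) δ) (by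
    rintro y y' hrel ⟨t, ht, hRt⟩ hq
    by_contra hq'
    push Not at hq hq'
    exact hRt ⟨exit_oneK hs hrel hq hq' ht.le, Cm_rn hc t y⟩)
  linarith

/-- short words stay near -/
theorem near_WsK {N : ℕ} {s : Fin N → ℤ × ℤ} {a b n l δ nL δL L : ℕ} (hs : GK a b s) (hc : Cm s) (hnL : nL ≤ n)
    (hL : 2 * L + δL ≤ nL) {k : ℕ} (hk : k < L) :
    Ws n k (fun t y => id1 (¬ (GK (a + δ) (a + 2 * δ + b + l + 1) (rn stK t s y) ∧ Cm (rn stK t s y) ∧
      ∀ i, |((rn stK t s y) i).1 - (s i).1| ≤ δL))) ≤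
      2 * ((N + 1) * pb n (fun y => ¬ Gd n (4 ^ l : ℕ) δ y)) +
        2 * ((N + 1) * pb nL (fun y => ¬ Gd nL (4 ^ l : ℕ) δL y)) := by
  set R : ℕ → ℤ → Prop := fun t y => ¬ (GK (a + δ) (a + 2 * δ + b + l + 1) (rn stK t s y) ∧ Cm (rn stK t s y) ∧
      ∀ i, |((rn stK t s y) i).1 - (s i).1| ≤ δL) with hR
  have hRper : ∀ t, Per t (R t) := fun t =>
    per_rnK s (fun s' => ¬ (GK (a + δ) (a + 2 * δ + b + l + 1) s' ∧ Cm s' ∧ ∀ i, |(s' i).1 - (s i).1| ≤ δL)) t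
  set P : ℤ → Prop := fun y => ∃ t, t < n ∧ isW k t y ∧ R t y with hP
  have h1 := Ws_le n k hRper (Q := P) (fun t ht y hw _ h => ⟨t, ht, hw, h⟩)
  refine h1.trans ?_
  have hPper : Per n P := by
    intro x u
    rw [hP]
    simp only
    apply propext
    apply exists_congr
    intro t
    apply and_congr_right
    intro ht
    rw [((hRper t).mono ht.le) x u, ((per_isW k t).mono ht.le) x u]
  set Q : ℤ → Prop := fun y => (¬ Gd n (4 ^ l : ℕ) δ y) ∨ (¬ Gd nL (4 ^ l : ℕ) δL y) with hQ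
  have hQper : Per n Q := by
    intro x u
    rw [hQ]; simp only
    have e1 := per_nGd n (4 ^ l) δ x u
    have e2 := ((per_nGd nL (4 ^ l) δL).mono hnL) x u
    simp only at e1 e2
    rw [e1, e2]
  have h2 := pb_reprK hs hc hPper hQper (by
    rintro y y' hrel ⟨t, ht, hw, hRt⟩ hq
    by_contra hq'
    rw [hQ] at hq hq'
    simp only [not_or, not_not, not_exists] at hq hq'
    apply hRt
    refine ⟨exit_oneK hs hrel hq.1 (fun i => (hq' i).1) ht.le, Cm_rn hc t y, ?_⟩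
    intro i
    have htn : t ≤ nL := by
      by_contra hcon
      push Not at hcon
      have b1 := od_lo hq.2 (le_refl nL)
      have b2 := od_mono y hcon.le
      have b3 := hw.1
      omega
    have a1 := od_up hq.2 htn
    have a2 := od_lo hq.2 htn
    have a3 := od_up (hq' i).2 htn
    have a4 := od_lo (hq' i).2 htn
    rw [rn_stK_apply, (rel_rn (hrel i) t).2, abs_le]
    constructor <;> omega)
  have h3 : pb n Q ≤ pb n (fun y => ¬ Gd n (4 ^ l : ℕ) δ y) + pb nL (fun y => ¬ Gd nL (4 ^ l : ℕ) δL y) := by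
    have := pb_or n (fun y => ¬ Gd n (4 ^ l : ℕ) δ y) (fun y => ¬ Gd nL (4 ^ l : ℕ) δL y)
    rw [pb_per hnL (per_nGd nL (4 ^ l) δL)] at this
    exact this
  have h4 : (N + 1 : ℝ) * pb n Q ≤ (N + 1) * (pb n (fun y => ¬ Gd n (4 ^ l : ℕ) δ y) +
      pb nL (fun y => ¬ Gd nL (4 ^ l : ℕ) δL y)) := mul_le_mul_of_nonneg_left h3 (by positivity)
  linarith

/-- the labels -/
noncomputable def LabK (N a b : ℕ) : Finset (Fin N → ℤ × ℤ) := Fintype.piFinset (fun _ => Lab a b)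

theorem mem_LabK {N a b : ℕ} {s : Fin N → ℤ × ℤ} : s ∈ LabK N a b ↔ GK a b s := by
  unfold LabK GK
  rw [Fintype.mem_piFinset]
  exact forall_congr' fun i => mem_Lab

theorem card_LabK (N a b : ℕ) : #(LabK N a b) = (#(Lab a b)) ^ N := by
  unfold LabK
  rw [Fintype.card_piFinset, prod_const, card_univ, Fintype.card_fin]

theorem log_card_LabK (N a b : ℕ) : log ((#(LabK N a b) : ℕ) : ℝ) ≤ N * (2 * a + 2 * (b + 1)) := by
  rw [card_LabK, Nat.cast_pow, log_pow]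
  exact mul_le_mul_of_nonneg_left (log_card_Lab a b) (by positivity)

theorem typ_WsK {N : ℕ} {s : Fin N → ℤ × ℤ} {a b n l δ K : ℕ} (hs : GK a b s) (hc : Cm s) (hK : 1 ≤ K)
    (hn : 2 * K + δ < n) :
    1 - (2 * N + 4) * pb n (fun y => ¬ Gd n (4 ^ l : ℕ) δ y) ≤
      Ws n K (fun t y => id1 (TY stK s (2 * K - δ) (2 * K + δ) l (LabK N (a + δ) (a + 2 * δ + b + l + 1)) t y)) := by
  set x := pb n (fun y => ¬ Gd n (4 ^ l : ℕ) δ y) with hx
  have h1 := Ws_one_ge (n := n) (k := K) (by omega) hK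
  have h2 : pb n (fun y => od n y ≤ K) ≤ x := by
    apply pb_mono
    intro y hy hg
    have := od_lo hg (le_refl n)
    omega
  set R : ℕ → ℤ → Prop := fun t y => ¬ (isW K t y → TY stK s (2 * K - δ) (2 * K + δ) l
    (LabK N (a + δ) (a + 2 * δ + b + l + 1)) t y) with hR
  have hRper : ∀ t, Per t (R t) := by
    intro t x u
    rw [hR]; simp only
    unfold TY
    rw [per_rn stK s (le_refl t) x u, per_rh (le_refl t) x u, per_isW K t x u]
  have h3 := Ws_le n K hRper (Q := fun y => ∃ t, t < n ∧ R t y) (fun t ht y _ _ h => ⟨t, ht, h⟩)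
  have hPper : Per n (fun y => ∃ t, t < n ∧ R t y) := by
    intro x u
    simp only
    apply propext
    apply exists_congr
    intro t
    apply and_congr_right
    intro ht
    rw [((hRper t).mono ht.le) x u]
  have h4 := pb_reprK hs hc hPper (per_nGd n (4 ^ l) δ) (by
    rintro y y' hrel ⟨t, ht, hRt⟩ hq
    by_contra hq'
    push Not at hq hq'
    apply hRt
    intro hw
    have a1 := od_up hq ht.le
    have a2 := od_lo hq ht.le
    rw [hw.1] at a1 a2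
    refine ⟨⟨by omega, by omega⟩, (hq t ht.le).1, ?_⟩
    rw [mem_LabK]
    exact exit_oneK hs hrel hq hq' ht.le)
  have h5 : Ws n K (fun _ _ => 1) ≤ Ws n K (fun t y => id1 (TY stK s (2 * K - δ) (2 * K + δ) l
      (LabK N (a + δ) (a + 2 * δ + b + l + 1)) t y)) + Ws n K (fun t y => id1 (R t y)) := by
    rw [← Ws_add]
    apply Ws_mono
    intro t _ y hw
    by_cases hT : TY stK s (2 * K - δ) (2 * K + δ) l (LabK N (a + δ) (a + 2 * δ + b + l + 1)) t y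
    · rw [id1_pos hT]
      have := id1_nonneg (R t y)
      linarith
    · have : R t y := fun h => hT (h hw)
      rw [id1_pos this]
      have := id1_nonneg (TY stK s (2 * K - δ) (2 * K + δ) l (LabK N (a + δ) (a + 2 * δ + b + l + 1)) t y)
      linarith
  linarith

theorem tup_B {N : ℕ} {s : Fin N → ℤ × ℤ} {a b n l δ K M : ℕ} (hs : GK a b s) (hc : Cm s) (hK : 1 ≤ K)
    (hn : 2 * K + δ < n) (hM : M = Nat.log 3 (4 ^ l * 2 ^ (2 * K + δ)) + 1) :
    ∑ q ∈ range M, Gm stK n K s q ≤ 3 * (7 + 2 * l + 2 * δ + (2 * N + 4) * (n * pb n (fun y => ¬ Gd n (4 ^ l : ℕ) δ y)) +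
      log n + N * (2 * (a + δ) + 2 * (a + 2 * δ + b + l + 1) + 2)) := by
  set x := pb n (fun y => ¬ Gd n (4 ^ l : ℕ) δ y) with hx
  have hx0 : 0 ≤ x := pb_nonneg _ _
  set N0 := 4 ^ l * 2 ^ (2 * K + δ) with hN0
  have hN0pos : 0 < N0 := by positivity
  have h1 : N0 < 3 ^ M := by rw [hM]; exact Nat.lt_pow_succ_log_self (by norm_num) N0
  have h2 : 3 ^ (M - 1) ≤ N0 := by
    rw [hM, Nat.add_sub_cancel]
    exact Nat.pow_log_le_self 3 hN0pos.ne'
  have hne : (LabK N (a + δ) (a + 2 * δ + b + l + 1)).Nonempty := ⟨fun _ => (0, 0), by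
    rw [mem_LabK]
    intro i
    exact ⟨by simp only [abs_zero]; positivity, by simp only [abs_zero]; positivity⟩⟩
  have h3 := Gm_ent stK s (n := n) (K := K) (M := M) (Tlo := 2 * K - δ) (Thi := 2 * K + δ) (l := l) _ hne (by omega) h1
  have h4 := typ_WsK (l := l) hs hc hK hn
  refine h3.trans ?_
  apply mul_le_mul_of_nonneg_left _ (by norm_num)
  have hl2 : 0 < log 2 := log_pos (by norm_num)
  have hl2' := log_two_lt_d9
  have hl3 : log 3 ≤ 2 := by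
    have := log_le_sub_one_of_pos (show (0 : ℝ) < 3 by norm_num)
    linarith
  have hl3' : 0 < log 3 := log_pos (by norm_num)
  -- the size of `M`
  have h5 : (M : ℝ) * log 3 ≤ log 3 + (2 * l + 2 * K + δ) * log 2 := by
    have h6 : ((3 : ℝ) ^ (M - 1)) ≤ (4 : ℝ) ^ l * 2 ^ (2 * K + δ) := by exact_mod_cast h2
    have h7 := log_le_log (by positivity) h6
    rw [log_pow, log_mul (by positivity) (by positivity), log_pow, log_pow, show (4 : ℝ) = 2 ^ 2 by norm_num,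
      log_pow] at h7
    have h8 : ((M - 1 : ℕ) : ℝ) = M - 1 := by
      rw [Nat.cast_sub (by omega)]; simp
    rw [h8] at h7
    push_cast at h7
    linarith
  have h9 : ((2 * K - δ : ℕ) : ℝ) ≥ 2 * K - δ := by
    have : 2 * K ≤ (2 * K - δ) + δ := by omega
    have : (2 * K : ℝ) ≤ ((2 * K - δ : ℕ) : ℝ) + δ := by exact_mod_cast this
    linarith
  have h9' : ((2 * K - δ : ℕ) : ℝ) ≤ n := by
    have : 2 * K - δ ≤ n := by omega
    exact_mod_cast this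
  set W := Ws n K (fun t y => id1 (TY stK s (2 * K - δ) (2 * K + δ) l (LabK N (a + δ) (a + 2 * δ + b + l + 1)) t y)) with hW
  have h10 : ((2 * K - δ : ℕ) : ℝ) * log 2 * (1 - (2 * N + 4) * x) ≤ ((2 * K - δ : ℕ) : ℝ) * log 2 * W :=
    mul_le_mul_of_nonneg_left h4 (by positivity)
  have h11 : ((2 * K - δ : ℕ) : ℝ) * log 2 * ((2 * N + 4) * x) ≤ (2 * N + 4) * (n * x) := by
    have e1 : ((2 * K - δ : ℕ) : ℝ) * log 2 ≤ n * 1 := mul_le_mul h9' (by linarith) hl2.le (by positivity)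
    have : ((2 * K - δ : ℕ) : ℝ) * log 2 * ((2 * N + 4) * x) ≤ n * 1 * ((2 * N + 4) * x) :=
      mul_le_mul_of_nonneg_right e1 (by positivity)
    linarith
  have h12 : (2 * (K : ℝ) - δ) * log 2 ≤ ((2 * K - δ : ℕ) : ℝ) * log 2 := mul_le_mul_of_nonneg_right h9 hl2.le
  have h13 := log_card_LabK N (a + δ) (a + 2 * δ + b + l + 1)
  have hnpos : (0 : ℝ) < n := by
    have : 0 < n := by omega
    exact_mod_cast this
  have hcpos : (0 : ℝ) < ((#(LabK N (a + δ) (a + 2 * δ + b + l + 1)) : ℕ) : ℝ) := by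
    exact_mod_cast Finset.card_pos.2 hne
  have h14 : log ((n : ℝ) * ((#(LabK N (a + δ) (a + 2 * δ + b + l + 1)) : ℕ) : ℝ)) ≤
      log n + N * (2 * ((a + δ : ℕ) : ℝ) + 2 * (((a + 2 * δ + b + l + 1 : ℕ) : ℝ) + 1)) := by
    rw [log_mul hnpos.ne' hcpos.ne']; linarith
  push_cast at h14
  have h15 : (2 * (l : ℝ) + 2 * K + δ) * log 2 - (2 * (K : ℝ) - δ) * log 2 ≤ 2 * l + 2 * δ := by
    have : (2 * (l : ℝ) + 2 * K + δ) * log 2 - (2 * (K : ℝ) - δ) * log 2 = (2 * l + 2 * δ) * log 2 := by ring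
    rw [this]
    have h16 : (0 : ℝ) ≤ 2 * l + 2 * δ := by positivity
    nlinarith
  linarith

theorem tup_digit {C : ℝ} (hC : 0 < C) (hrate : ∀ (k : ℕ), 1 ≤ k → ∀ (D : ℤ) (u : ℕ) (r : ℤ), |(r : ℝ)| ≤ 4 ^ u →
    ns k (D, r) ≤ C * √ (1 + (D : ℝ) ^ 2 + u) * rho k) {N : ℕ} {s : Fin N → ℤ × ℤ} {a b n l δ nL δL L K j : ℕ}
    (hs : GK a b s) (hc : Cm s) (hL : 1 ≤ L) (h50 : 50 * L ≤ K) (hK100 : 100 ≤ K) (hn : 2 * K + δ < n) (hj : 10 * j ≤ K)
    (hnL : nL ≤ n) (hLL : 2 * L + δL ≤ nL) :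
    Gm stK n K s (K + j) ≤
      3 * (7 + 2 * l + 2 * δ + (2 * N + 4) * (n * pb n (fun y => ¬ Gd n (4 ^ l : ℕ) δ y)) + log n +
        N * (2 * ((a + δ) + δ) + 2 * ((a + δ) + 2 * δ + (a + 2 * δ + b + l + 1) + l + 1) + 2)) / L +
      4 * (N + 1) * pb n (fun y => ¬ Gd n (4 ^ l : ℕ) δ y) + 2 * (N + 1) * pb nL (fun y => ¬ Gd nL (4 ^ l : ℕ) δL y) +
      2 * (N + 1) * (C * √ (1 + (δL : ℝ) ^ 2 + (4 * (a + δ) + (a + 2 * δ + b + l + 1) + 3 : ℕ)) * rho (K / 100)) := by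
  set a₁ := a + δ with ha₁
  set b₁ := a + 2 * δ + b + l + 1 with hb₁
  set x := pb n (fun y => ¬ Gd n (4 ^ l : ℕ) δ y) with hx
  set xL := pb nL (fun y => ¬ Gd nL (4 ^ l : ℕ) δL y) with hxL
  have hx0 : 0 ≤ x := pb_nonneg _ _
  set I := K / 100 with hI
  have hI1 : 1 ≤ I := by rw [hI]; omega
  set K₀ := K - I - L with hK₀
  have hKK : I + L + K₀ = K := by omega
  have hK₀1 : 1 ≤ K₀ := by omega
  set δc := ((N : ℝ) + 1) * (C * √ (1 + (δL : ℝ) ^ 2 + (4 * a₁ + b₁ + 3 : ℕ)) * rho I) with hδc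
  have hδc0 : 0 ≤ δc := by
    have := rho_nonneg I
    positivity
  set M := Nat.log 3 (4 ^ l * 2 ^ (2 * K₀ + δ)) + 1 with hM
  have hM2 : K + j ≤ M := by
    have h1 : 4 ^ l * 2 ^ (2 * K₀ + δ) < 3 ^ M := Nat.lt_pow_succ_log_self (by norm_num) _
    have h2 : 4 ^ K₀ < 3 ^ M := by
      refine lt_of_le_of_lt ?_ h1
      calc 4 ^ K₀ = 2 ^ (2 * K₀) := by rw [pow_mul]; norm_num
        _ ≤ 2 ^ (2 * K₀ + δ) := Nat.pow_le_pow_right (by norm_num) (by omega)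
        _ ≤ 4 ^ l * 2 ^ (2 * K₀ + δ) := Nat.le_mul_of_pos_left _ (by positivity)
    by_contra hcon
    push Not at hcon
    have h3 : 4 * M ≤ 5 * K₀ := by omega
    have h4 : 3 ^ (4 * M) ≤ 4 ^ (4 * K₀) := by
      calc 3 ^ (4 * M) ≤ 3 ^ (5 * K₀) := Nat.pow_le_pow_right (by norm_num) h3
        _ = (3 ^ 5) ^ K₀ := by rw [pow_mul]
        _ ≤ (4 ^ 4) ^ K₀ := Nat.pow_le_pow_left (by norm_num) _
        _ = 4 ^ (4 * K₀) := by rw [← pow_mul]
    have h5 : 4 ^ (4 * K₀) < 3 ^ (4 * M) := by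
      rw [mul_comm 4 K₀, mul_comm 4 M, pow_mul, pow_mul]
      exact Nat.pow_lt_pow_left h2 (by norm_num)
    omega
  have key := digit_bound stK (n := n) (K₀ := K₀) (I := I) (L := L) (e := K + j - L) (M := M) (k := I) s
    (fun s' => GK a₁ b₁ s' ∧ Cm s')
    (fun s' => GK a₁ b₁ s' ∧ Cm s' ∧ ∀ i, |(s' i).1 - (s i).1| ≤ δL) (δ := δc)
    (x₁ := 2 * ((N + 1) * x) + 2 * ((N + 1) * xL)) (x₂ := 2 * ((N + 1) * x))
    (B := 3 * (7 + 2 * l + 2 * δ + (2 * N + 4) * (n * x) + log n +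
        N * (2 * (a₁ + δ) + 2 * (a₁ + 2 * δ + b₁ + l + 1) + 2)))
    hI1 le_rfl hL (by
      have : 0 ≤ log (n : ℝ) := log_natCast_nonneg n
      positivity) hδc0 ?_ ?_ ?_ ?_ (by omega) (by omega)
  · rw [hKK, show K + j - L + L = K + j by omega] at key
    have ha1r : (a₁ : ℝ) = a + δ := by rw [ha₁]; push_cast; ring
    have hb1r : (b₁ : ℝ) = a + 2 * δ + b + l + 1 := by rw [hb₁]; push_cast; ring
    refine key.trans (le_of_eq ?_)
    rw [hδc, ha1r, hb1r]; ring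
  · rintro s' ⟨h1, h2, h3⟩
    exact t_CPL C hC hrate N I n a₁ b₁ δL hI1 (by omega) s s' (GK_mono (by omega) (by omega) hs) h1 hc h2 h3
  · intro k hk
    exact near_WsK hs hc hnL hLL hk
  · exact exit_WsK hs hc I
  · rintro s₁ ⟨hs₁, hc₁⟩
    have := tup_B (l := l) (δ := δ) (n := n) (M := M) hs₁ hc₁ hK₀1 (by omega) rfl
    exact this

end Pool.Agent.J4H67.KT
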