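import Mathlib
import Pool.Agent.J4H67.KT.Mix1

set_option autoImplicit false

/-! Decay of the nonuniformity for tuples. -/

namespace Pool.Agent.J4H67.KT

open Finset Real Filter Topology
open Pool.Agent.J4H39
open Pool.Agent.H499R2.CO (rho rho_nonneg)

/-- the digit bound -/
theorem digit_zK {C : ℝ} (hC : 0 < C) (hrate : ∀ (k : ℕ), 1 ≤ k → ∀ (D : ℤ) (u : ℕ) (r : ℤ), |(r : ℝ)| ≤ 4 ^ u →
    ns k (D, r) ≤ C * √ (1 + (D : ℝ) ^ 2 + u) * rho k) {N z c n : ℕ} (hz : 16 ≤ z) (hy : (z : ℝ) ^ 20 * yz z ≤ 1)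
    (hn : z ^ 20 ≤ n) (hn8 : n ≤ 8 * z ^ 20) {s : Fin N → ℤ × ℤ} (hs : GK (c * z ^ 12) (c * z ^ 14) s) (hcm : Cm s)
    {K j : ℕ} (hK : z ^ 18 ≤ K) (hKn : 2 * K + z ^ 11 < n) (hj : 10 * j ≤ K) :
    Gm stK n K s (K + j) ≤ (400 + 300 * N + 100 * (N * c)) / z +
      2 * (N + 1) * (C * √ ((20 + 6 * c) * 8600 * (√ z / z ^ 2))) := by
  have hz0 : (16 : ℝ) ≤ z := by exact_mod_cast hz
  have hzp : (0 : ℝ) < z := by linarith
  have hz1 : (1 : ℝ) ≤ z := by linarith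
  have hc0 : (0 : ℝ) ≤ c := by positivity
  have hN0 : (0 : ℝ) ≤ N := by positivity
  have hn1 : 1 ≤ n := le_trans (Nat.one_le_pow _ _ (by omega)) hn
  have h := tup_digit hC hrate (s := s) (a := c * z ^ 12) (b := c * z ^ 14) (n := n) (l := z) (δ := z ^ 11)
    (nL := 3 * z ^ 15) (δL := z ^ 8) (L := z ^ 15) (K := K) (j := j) hs hcm (Nat.one_le_pow _ _ (by omega))
    (by
      refine le_trans ?_ hK
      calc 50 * z ^ 15 ≤ z ^ 3 * z ^ 15 := Nat.mul_le_mul_right _ (by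
            calc 50 ≤ 16 ^ 3 := by norm_num
              _ ≤ z ^ 3 := Nat.pow_le_pow_left hz 3)
        _ = z ^ 18 := by ring)
    (by
      refine le_trans ?_ hK
      calc 100 ≤ 16 ^ 18 := by norm_num
        _ ≤ z ^ 18 := Nat.pow_le_pow_left hz 18) hKn hj
    (by
      refine le_trans ?_ hn
      calc 3 * z ^ 15 ≤ z ^ 5 * z ^ 15 := Nat.mul_le_mul_right _ (by
            calc 3 ≤ 16 ^ 5 := by norm_num
              _ ≤ z ^ 5 := Nat.pow_le_pow_left hz 5)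
        _ = z ^ 20 := by ring)
    (by
      have : z ^ 8 ≤ z ^ 15 := Nat.pow_le_pow_right (by omega) (by norm_num)
      omega)
  refine h.trans ?_
  have hx := x_bd hz hn1 hn8
  have hxL := xL_bd hz
  set x := pb n (fun y => ¬ Gd n (4 ^ z : ℕ) ((z ^ 11 : ℕ) : ℝ) y) with hxdef
  set xL := pb (3 * z ^ 15) (fun y => ¬ Gd (3 * z ^ 15) (4 ^ z : ℕ) ((z ^ 8 : ℕ) : ℝ) y) with hxLdef
  have hyz := yz_nonneg z
  have hx0 : 0 ≤ x := pb_nonneg _ _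
  have hxL0 : 0 ≤ xL := pb_nonneg _ _
  have hlog := log_n_le (show 1 ≤ z by omega) hn1 hn8
  have hn8r : (n : ℝ) ≤ 8 * (z : ℝ) ^ 20 := by exact_mod_cast hn8
  have hsz : √ (z : ℝ) ≤ z := by
    rw [Real.sqrt_le_left hzp.le]
    nlinarith
  have hsz1 : 1 ≤ √ (z : ℝ) := by rw [Real.one_le_sqrt]; exact hz1
  -- powers
  have p1 : (z : ℝ) ≤ (z : ℝ) ^ 14 := by
    calc (z : ℝ) = z ^ 1 := (pow_one _).symm
      _ ≤ z ^ 14 := pow_le_pow_right₀ hz1 (by norm_num)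
  have p11 : (z : ℝ) ^ 11 ≤ (z : ℝ) ^ 14 := pow_le_pow_right₀ hz1 (by norm_num)
  have p12 : (z : ℝ) ^ 12 ≤ (z : ℝ) ^ 14 := pow_le_pow_right₀ hz1 (by norm_num)
  have p0 : (1 : ℝ) ≤ (z : ℝ) ^ 14 := one_le_pow₀ hz1
  have hcp12 : (c : ℝ) * (z : ℝ) ^ 12 ≤ c * (z : ℝ) ^ 14 := mul_le_mul_of_nonneg_left p12 hc0
  have t1 : (n : ℝ) * x ≤ 8 := by
    calc (n : ℝ) * x ≤ (8 * (z : ℝ) ^ 20) * yz z := by gcongr
      _ = 8 * ((z : ℝ) ^ 20 * yz z) := by ring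
      _ ≤ 8 * 1 := by gcongr
      _ = 8 := by norm_num
  have t1' : (2 * (N : ℝ) + 4) * (n * x) ≤ (2 * N + 4) * (8 * (z : ℝ) ^ 14) := by
    apply mul_le_mul_of_nonneg_left _ (by positivity)
    linarith
  have hy1 : yz z ≤ 1 / z := by
    rw [le_div_iff₀ hzp]
    refine le_trans ?_ hy
    rw [mul_comm]
    apply mul_le_mul_of_nonneg_right _ hyz
    calc (z : ℝ) = z ^ 1 := (pow_one _).symm
      _ ≤ z ^ 20 := pow_le_pow_right₀ hz1 (by norm_num)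
  have hX1 : 2 * (c * (z : ℝ) ^ 12 + z ^ 11 + z ^ 11) + 2 * (c * z ^ 12 + z ^ 11 + 2 * z ^ 11 +
      (c * z ^ 12 + 2 * z ^ 11 + c * z ^ 14 + z + 1) + z + 1) + 2 ≤ (24 + 8 * c) * (z : ℝ) ^ 14 := by
    have e : (24 + 8 * (c : ℝ)) * (z : ℝ) ^ 14 = 24 * (z : ℝ) ^ 14 + 8 * (c * (z : ℝ) ^ 14) := by ring
    rw [e]
    linarith
  have hX2 : (N : ℝ) * (2 * (c * (z : ℝ) ^ 12 + z ^ 11 + z ^ 11) + 2 * (c * z ^ 12 + z ^ 11 + 2 * z ^ 11 +
      (c * z ^ 12 + 2 * z ^ 11 + c * z ^ 14 + z + 1) + z + 1) + 2) ≤ N * ((24 + 8 * c) * (z : ℝ) ^ 14) :=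
    mul_le_mul_of_nonneg_left hX1 hN0
  have T1 : 3 * (7 + 2 * (z : ℝ) + 2 * ((z ^ 11 : ℕ) : ℝ) + (2 * N + 4) * (n * x) + Real.log n +
        N * (2 * ((((c * z ^ 12 : ℕ) : ℝ) + ((z ^ 11 : ℕ) : ℝ)) + ((z ^ 11 : ℕ) : ℝ)) +
        2 * ((((c * z ^ 12 : ℕ) : ℝ) + ((z ^ 11 : ℕ) : ℝ)) + 2 * ((z ^ 11 : ℕ) : ℝ) +
          (((c * z ^ 12 : ℕ) : ℝ) + 2 * ((z ^ 11 : ℕ) : ℝ) + ((c * z ^ 14 : ℕ) : ℝ) + z + 1) + z + 1) + 2)) /
          ((z ^ 15 : ℕ) : ℝ)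
      ≤ (300 + 200 * N + 100 * (N * c)) / z := by
    push_cast
    rw [div_le_div_iff₀ (by positivity) hzp]
    have e : (300 + 200 * (N : ℝ) + 100 * (N * c)) * (z : ℝ) ^ 15 =
      (300 + 200 * N + 100 * (N * c)) * (z : ℝ) ^ 14 * z := by ring
    rw [e]
    apply mul_le_mul_of_nonneg_right _ hzp.le
    have hcz : 0 ≤ (N : ℝ) * c * (z : ℝ) ^ 14 := by positivity
    have hNz : 0 ≤ (N : ℝ) * (z : ℝ) ^ 14 := by positivity
    have e2 : (300 + 200 * (N : ℝ) + 100 * (N * c)) * (z : ℝ) ^ 14 =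
      300 * (z : ℝ) ^ 14 + 200 * (N * (z : ℝ) ^ 14) + 100 * (N * c * (z : ℝ) ^ 14) := by ring
    rw [e2]
    have e3 : (N : ℝ) * ((24 + 8 * c) * (z : ℝ) ^ 14) = 24 * (N * (z : ℝ) ^ 14) + 8 * (N * c * (z : ℝ) ^ 14) := by ring
    rw [e3] at hX2
    have e4 : (2 * (N : ℝ) + 4) * (8 * (z : ℝ) ^ 14) = 16 * (N * (z : ℝ) ^ 14) + 32 * (z : ℝ) ^ 14 := by ring
    rw [e4] at t1'
    linarith
  have T2 : 4 * ((N : ℝ) + 1) * x + 2 * (N + 1) * xL ≤ (100 + 100 * N) / z := by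
    have a1 : ((N : ℝ) + 1) * x ≤ (N + 1) * (1 / z) := mul_le_mul_of_nonneg_left (hx.trans hy1) (by positivity)
    have a2 : ((N : ℝ) + 1) * xL ≤ (N + 1) * (1 / z) := mul_le_mul_of_nonneg_left (hxL.trans hy1) (by positivity)
    have a3 : (100 + 100 * (N : ℝ)) / z = 100 * ((N + 1) * (1 / z)) := by ring
    rw [a3]
    have a4 : 0 ≤ ((N : ℝ) + 1) * (1 / z) := by positivity
    linarith
  have T3 : C * √ (1 + ((z ^ 8 : ℕ) : ℝ) ^ 2 + ((4 * (c * z ^ 12 + z ^ 11) +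
      (c * z ^ 12 + 2 * z ^ 11 + c * z ^ 14 + z + 1) + 3 : ℕ) : ℝ)) * rho (K / 100) ≤
      C * √ ((20 + 6 * c) * 8600 * (√ z / z ^ 2)) := by
    rw [mul_assoc]
    apply mul_le_mul_of_nonneg_left _ hC.le
    unfold rho
    rw [← Real.sqrt_mul (by positivity)]
    apply Real.sqrt_le_sqrt
    have p16 : ∀ i : ℕ, i ≤ 16 → (z : ℝ) ^ i ≤ (z : ℝ) ^ 16 := fun i hi => pow_le_pow_right₀ hz1 hi
    have a1 : 1 + ((z ^ 8 : ℕ) : ℝ) ^ 2 + ((4 * (c * z ^ 12 + z ^ 11) +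
      (c * z ^ 12 + 2 * z ^ 11 + c * z ^ 14 + z + 1) + 3 : ℕ) : ℝ) ≤ (20 + 6 * c) * (z : ℝ) ^ 16 := by
      push_cast
      have q0 := p16 0 (by norm_num)
      have q1 := p16 1 (by norm_num)
      have q11 := p16 11 (by norm_num)
      have q12 := p16 12 (by norm_num)
      have q14 := p16 14 (by norm_num)
      rw [pow_zero] at q0
      rw [pow_one] at q1
      have r12 : (c : ℝ) * (z : ℝ) ^ 12 ≤ c * (z : ℝ) ^ 16 := mul_le_mul_of_nonneg_left q12 hc0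
      have r14 : (c : ℝ) * (z : ℝ) ^ 14 ≤ c * (z : ℝ) ^ 16 := mul_le_mul_of_nonneg_left q14 hc0
      have e : ((z : ℝ) ^ 8) ^ 2 = (z : ℝ) ^ 16 := by ring
      rw [e]
      linarith
    have hKr : (z : ℝ) ^ 18 ≤ K := by exact_mod_cast hK
    have hK100 : (z : ℝ) ^ 18 / 200 ≤ ((K / 100 : ℕ) : ℝ) := by
      have h1 : K ≤ 100 * (K / 100) + 99 := by omega
      have h2 : (K : ℝ) ≤ 100 * ((K / 100 : ℕ) : ℝ) + 99 := by exact_mod_cast h1
      have h3 : (200 : ℝ) ≤ (z : ℝ) ^ 18 := by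
        calc (200 : ℝ) ≤ 16 ^ 18 := by norm_num
          _ ≤ (z : ℝ) ^ 18 := pow_le_pow_left₀ (by norm_num) hz0 18
      linarith
    have hKpos : (0 : ℝ) < (z : ℝ) ^ 18 / 200 := by positivity
    have hlogK : Real.log (((K / 100 : ℕ) : ℝ) + 1) ≤ 43 * √ z := by
      refine le_trans (Real.log_le_log (by positivity) ?_) hlog
      have : K / 100 + 1 ≤ n := by omega
      exact_mod_cast this
    have hlog0 : 0 ≤ Real.log (((K / 100 : ℕ) : ℝ) + 1) := Real.log_nonneg (by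
      have : (0 : ℝ) ≤ ((K / 100 : ℕ) : ℝ) := by positivity
      linarith)
    calc (1 + ((z ^ 8 : ℕ) : ℝ) ^ 2 + ((4 * (c * z ^ 12 + z ^ 11) +
      (c * z ^ 12 + 2 * z ^ 11 + c * z ^ 14 + z + 1) + 3 : ℕ) : ℝ)) *
        (Real.log (((K / 100 : ℕ) : ℝ) + 1) / ((K / 100 : ℕ) : ℝ)) ≤
        ((20 + 6 * c) * (z : ℝ) ^ 16) * ((43 * √ z) / ((z : ℝ) ^ 18 / 200)) := by gcongr
      _ = (20 + 6 * c) * 8600 * (√ z / z ^ 2) := by field_simp; norm_num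
  have T3' := mul_le_mul_of_nonneg_left T3 (by positivity : (0 : ℝ) ≤ 2 * (N + 1))
  have e0 : (400 + 300 * (N : ℝ) + 100 * (N * c)) / z = (300 + 200 * N + 100 * (N * c)) / z + (100 + 100 * N) / z := by
    ring
  rw [e0]
  linarith

theorem digit_evK (N c : ℕ) : ∀ᶠ z : ℕ in atTop, ∀ n, z ^ 20 ≤ n → n ≤ 8 * z ^ 20 → ∀ s : Fin N → ℤ × ℤ,
    GK (c * z ^ 12) (c * z ^ 14) s → Cm s →
    ∀ K j, z ^ 18 ≤ K → 2 * K + z ^ 11 < n → 10 * j ≤ K → Gm stK n K s (K + j) ≤ 1 / √ z := by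
  obtain ⟨C, hC, hrate⟩ := ns_rate
  have h1 : Tendsto (fun z : ℕ => √ (z : ℝ)) atTop atTop := tendsto_sqrt_atTop.comp tendsto_natCast_atTop_atTop
  have h2 : Tendsto (fun t : ℝ => (400 + 300 * (N : ℝ) + 100 * (N * c)) / t +
      2 * (N + 1) * (C * √ ((20 + 6 * c) * 8600 * (1 / t)))) atTop (𝓝 0) := by
    have a1 : Tendsto (fun t : ℝ => (400 + 300 * (N : ℝ) + 100 * (N * c)) / t) atTop (𝓝 0) :=
      tendsto_const_nhds.div_atTop tendsto_id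
    have a2 : Tendsto (fun t : ℝ => (20 + 6 * (c : ℝ)) * 8600 * (1 / t)) atTop (𝓝 0) := by
      have := (tendsto_const_nhds (x := (1 : ℝ))).div_atTop (tendsto_id (α := ℝ) (x := atTop))
      have := this.const_mul ((20 + 6 * (c : ℝ)) * 8600)
      rw [mul_zero] at this
      exact this
    have a3 := (Real.continuous_sqrt.tendsto 0).comp a2
    rw [Real.sqrt_zero] at a3
    have a4 := (a3.const_mul C).const_mul (2 * ((N : ℝ) + 1))
    rw [mul_zero, mul_zero] at a4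
    have := a1.add a4
    rw [add_zero] at this
    exact this
  have h3 := h2.comp h1
  filter_upwards [h3.eventually (ge_mem_nhds one_pos), yz_small 20 one_pos, eventually_ge_atTop 16] with z a1 a2 a3
  intro n hn hn8 s hs hcm K j hK hKn hj
  refine (digit_zK hC hrate a3 a2 hn hn8 hs hcm hK hKn hj).trans ?_
  simp only [Function.comp] at a1
  have hz0 : (16 : ℝ) ≤ z := by exact_mod_cast a3
  have hzp : (0 : ℝ) < z := by linarith
  set t := √ (z : ℝ) with ht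
  have ht0 : 0 < t := Real.sqrt_pos.2 hzp
  have htz : t ^ 2 = z := Real.sq_sqrt hzp.le
  rw [← htz, le_div_iff₀ ht0, add_mul]
  have e1 : (400 + 300 * (N : ℝ) + 100 * (N * c)) / t ^ 2 * t = (400 + 300 * (N : ℝ) + 100 * (N * c)) / t := by
    field_simp
  have e2 : 2 * ((N : ℝ) + 1) * (C * √ ((20 + 6 * (c : ℝ)) * 8600 * (t / (t ^ 2) ^ 2))) * t =
      2 * ((N : ℝ) + 1) * (C * √ ((20 + 6 * (c : ℝ)) * 8600 * (1 / t))) := by
    have e3 : √ ((20 + 6 * (c : ℝ)) * 8600 * (t / (t ^ 2) ^ 2)) * t = √ ((20 + 6 * (c : ℝ)) * 8600 * (1 / t)) := by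
      conv_lhs => rw [show √ ((20 + 6 * (c : ℝ)) * 8600 * (t / (t ^ 2) ^ 2)) * t =
        √ ((20 + 6 * (c : ℝ)) * 8600 * (t / (t ^ 2) ^ 2)) * √ (t ^ 2) by rw [Real.sqrt_sq ht0.le]]
      rw [← Real.sqrt_mul (by positivity)]
      congr 1
      field_simp
    rw [← e3]; ring
  rw [e1, e2]
  exact a1

/-- Decay of the nonuniformity for tuples. -/
theorem t_MIX : S_MIX := by
  intro N c P
  set m := 2 * P + 2 with hm
  filter_upwards [digit_evK N (2 * c + 4), yz_small P (ε := 1 / (4 * m * (N + 1))) (by positivity),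
    eventually_ge_atTop (2 * 11 ^ m), eventually_ge_atTop 16] with z h1 h2 h3 h4
  intro n hn hn8 s hs hcm q k hq hqn hqk
  have hz0 : (16 : ℝ) ≤ z := by exact_mod_cast h4
  have hzp : (0 : ℝ) < z := by linarith
  have hz1 : (1 : ℝ) ≤ z := by linarith
  have hn1 : 1 ≤ n := le_trans (Nat.one_le_pow _ _ (by omega)) hn
  have hx := x_bd h4 hn1 hn8
  set x := pb n (fun y => ¬ Gd n (4 ^ z : ℕ) ((z ^ 11 : ℕ) : ℝ) y) with hxdef
  have hx0 : 0 ≤ x := pb_nonneg _ _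
  have p11 : z ^ 11 ≤ z ^ 12 := Nat.pow_le_pow_right (by omega) (by norm_num)
  have p12 : z ^ 12 ≤ z ^ 14 := Nat.pow_le_pow_right (by omega) (by norm_num)
  have p1 : z ≤ z ^ 14 := Nat.le_self_pow (by norm_num) z
  have p0 : 1 ≤ z ^ 14 := Nat.one_le_pow _ _ (by omega)
  have ha : c * z ^ 12 + z ^ 11 ≤ (2 * c + 4) * z ^ 12 := by nlinarith [Nat.zero_le (c * z ^ 12)]
  have hb : c * z ^ 12 + 2 * z ^ 11 + c * z ^ 14 + z + 1 ≤ (2 * c + 4) * z ^ 14 := by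
    have := Nat.mul_le_mul_left c p12
    nlinarith
  have hex : ∀ k₂, Ws n k₂ (fun t y => id1 (¬ (GK ((2 * c + 4) * z ^ 12) ((2 * c + 4) * z ^ 14) (rn stK t s y) ∧
      Cm (rn stK t s y)))) ≤ 2 * ((N + 1) * x) := by
    intro k₂
    refine le_trans ?_ (exit_WsK (l := z) (δ := z ^ 11) (n := n) hs hcm k₂)
    apply Ws_mono
    intro t _ y _
    apply id1_mono
    intro hh hg
    exact hh ⟨GK_mono ha hb hg.1, hg.2⟩
  have hsq1 : 1 ≤ √ (z : ℝ) := by rw [Real.one_le_sqrt]; exact hz1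
  have key := decay stK (n := n) (fun s' => GK ((2 * c + 4) * z ^ 12) ((2 * c + 4) * z ^ 14) s' ∧ Cm s')
    (Kmin := z ^ 18) (Kmax := q)
    (ε := 1 / √ z) (X := 2 * ((N + 1) * x)) (by positivity) (by rw [div_le_one (by linarith)]; exact hsq1) (by positivity)
    (fun s₁ hs₁ k₁ j a b d => h1 n hn hn8 s₁ hs₁.1 hs₁.2 k₁ j a (by omega) d) hex m q k (by
      refine le_trans ?_ hq
      calc 2 * 11 ^ m * z ^ 18 ≤ z * z ^ 18 := Nat.mul_le_mul_right _ h3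
        _ = z ^ 19 := by ring) le_rfl hqk
  refine key.trans ?_
  have hzP : (0 : ℝ) < (z : ℝ) ^ P := by positivity
  have e1 : (1 / √ (z : ℝ)) ^ m = 1 / (z : ℝ) ^ (P + 1) := by
    rw [hm, show 2 * P + 2 = 2 * (P + 1) by ring, pow_mul, div_pow, Real.sq_sqrt hzp.le, one_pow, div_pow, one_pow]
  have e2 : 1 / (z : ℝ) ^ (P + 1) ≤ (1 / 2) * (1 / (z : ℝ) ^ P) := by
    rw [pow_succ, one_div, mul_inv, ← one_div, mul_comm]
    apply mul_le_mul_of_nonneg_right _ (by positivity)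
    rw [inv_le_comm₀ hzp (by norm_num)]
    norm_num; linarith
  have hm0 : (0 : ℝ) < m := by rw [hm]; positivity
  have e3 : (m : ℝ) * (2 * ((N + 1) * x)) ≤ (1 / 2) * (1 / (z : ℝ) ^ P) := by
    have a1 : (m : ℝ) * (2 * ((N + 1) * x)) ≤ 2 * m * (N + 1) * yz z := by
      have := mul_le_mul_of_nonneg_left hx (by positivity : (0 : ℝ) ≤ 2 * m * (N + 1))
      linarith
    refine a1.trans ?_
    have a2 : yz z ≤ 1 / (4 * m * (N + 1)) / (z : ℝ) ^ P := by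
      rw [le_div_iff₀ hzP, mul_comm]; exact h2
    calc 2 * (m : ℝ) * (N + 1) * yz z ≤ 2 * m * (N + 1) * (1 / (4 * m * (N + 1)) / (z : ℝ) ^ P) :=
          mul_le_mul_of_nonneg_left a2 (by positivity)
      _ = (1 / 2) * (1 / (z : ℝ) ^ P) := by field_simp; norm_num
  rw [e1]
  linarith

end Pool.Agent.J4H67.KT
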