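import Pool.Agent.J4H39.K9

set_option autoImplicit false

/-! The transfer for several independent points. -/

namespace Pool.Agent.J4H67.KT

open Finset Filter Real Pool.Agent.J4H39

theorem mnK_abs {K : ℕ} {c : ℝ} (hc : 0 ≤ c) : ∀ {a : Fin K → ℤ} {b : Fin K → ℕ} {F G : (Fin K → ℤ) → ℝ},
    (∀ v, |F v - G v| ≤ c) → |mnK K a b F - mnK K a b G| ≤ c := by
  induction K with
  | zero => intro a b F G h; exact h _
  | succ K ih =>
    intro a b F G h
    exact mn_abs hc fun z => ih fun v => h _

theorem mnK_congr {K : ℕ} {a : Fin K → ℤ} {b : Fin K → ℕ} {F G : (Fin K → ℤ) → ℝ} (h : ∀ v, F v = G v) :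
    mnK K a b F = mnK K a b G := by
  have : F = G := funext h
  rw [this]

theorem exK_congr {K s : ℕ} {F G : (Fin K → ℤ) → ℝ} (h : ∀ v, F v = G v) : exK s K F = exK s K G := by
  have : F = G := funext h
  rw [this]

theorem exK_abs {K s : ℕ} {c : ℝ} : ∀ {F G : (Fin K → ℤ) → ℝ}, (∀ v, |F v - G v| ≤ c) → |exK s K F - exK s K G| ≤ c := by
  induction K with
  | zero => intro F G h; exact h _
  | succ K ih =>
    intro F G h
    exact ex_abs_const fun z => ih fun v => h _

theorem mn_mnK (a' : ℤ) (b' : ℕ) (K : ℕ) : ∀ (a : Fin K → ℤ) (b : Fin K → ℕ) (F : ℤ → (Fin K → ℤ) → ℝ),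
    mn a' b' (fun z => mnK K a b (F z)) = mnK K a b (fun v => mn a' b' (fun z => F z v)) := by
  induction K with
  | zero => intro a b F; rfl
  | succ K ih =>
    intro a b F
    change mn a' b' (fun z => mn (a 0) (b 0) (fun z0 => mnK K _ _ (fun v => F z (Fin.cons z0 v)))) =
      mn (a 0) (b 0) (fun z0 => mnK K _ _ (fun v => mn a' b' (fun z => F z (Fin.cons z0 v))))
    rw [mn_comm]
    exact mn_congr fun z0 => ih _ _ _

theorem mn_exK (a' : ℤ) (b' s K : ℕ) : ∀ (F : ℤ → (Fin K → ℤ) → ℝ),
    mn a' b' (fun z => exK s K (F z)) = exK s K (fun v => mn a' b' (fun z => F z v)) := by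
  induction K with
  | zero => intro F; rfl
  | succ K ih =>
    intro F
    change mn a' b' (fun z => ex s (fun z0 => exK s K (fun v => F z (Fin.cons z0 v)))) =
      ex s (fun z0 => exK s K (fun v => mn a' b' (fun z => F z (Fin.cons z0 v))))
    rw [mn_ex]
    exact ex_congr fun z0 => ih _

theorem ex_mnK (r K : ℕ) : ∀ (a : Fin K → ℤ) (b : Fin K → ℕ) (F : ℤ → (Fin K → ℤ) → ℝ),
    ex r (fun z => mnK K a b (F z)) = mnK K a b (fun v => ex r (fun z => F z v)) := by
  induction K with
  | zero => intro a b F; rfl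
  | succ K ih =>
    intro a b F
    change ex r (fun z => mn (a 0) (b 0) (fun z0 => mnK K _ _ (fun v => F z (Fin.cons z0 v)))) =
      mn (a 0) (b 0) (fun z0 => mnK K _ _ (fun v => ex r (fun z => F z (Fin.cons z0 v))))
    rw [← mn_ex (F := fun z0 z => mnK K (fun i => a i.succ) (fun i => b i.succ) (fun v => F z (Fin.cons z0 v)))]
    exact mn_congr fun z0 => ih _ _ _

theorem ex_exK (r s K : ℕ) : ∀ (F : ℤ → (Fin K → ℤ) → ℝ),
    ex r (fun z => exK s K (F z)) = exK s K (fun v => ex r (fun z => F z v)) := by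
  induction K with
  | zero => intro F; rfl
  | succ K ih =>
    intro F
    change ex r (fun z => ex s (fun z0 => exK s K (fun v => F z (Fin.cons z0 v)))) =
      ex s (fun z0 => exK s K (fun v => ex r (fun z => F z (Fin.cons z0 v))))
    rw [ex_comm]
    exact ex_congr fun z0 => ih _

theorem t_KLK : S_KLK := by
  intro K
  induction K with
  | zero =>
    intro n s k₁ b ε₁ hε hST Ψ hI h0 h1 a
    change |Ψ (fun i => od s ((fun i : Fin 0 => (i.elim0 : ℤ)) i)) (fun i => T^[s] ((fun i : Fin 0 => (i.elim0 : ℤ)) i)) -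
      Ψ (fun i => od s ((fun i : Fin 0 => (i.elim0 : ℤ)) i)) (fun i => i.elim0)| ≤ _
    have e : (fun i => T^[s] ((fun i : Fin 0 => (i.elim0 : ℤ)) i)) = (fun i : Fin 0 => (i.elim0 : ℤ)) :=
      funext fun i => i.elim0
    rw [e, sub_self, abs_zero]
    push_cast
    rw [zero_mul]
  | succ K ih =>
    intro n s k₁ b ε₁ hε hST Ψ hI h0 h1 a
    -- the first point fixed
    have s1 : ∀ x0 : ℤ, |mnK K (fun i => a i.succ) (fun _ => b) (fun x => Ψ (Fin.cons (od s x0) (fun i => od s (x i)))
        (Fin.cons (T^[s] x0) (fun i => T^[s] (x i)))) -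
        exK s K (fun y => mnK K (fun i => An n s (y i) (a i.succ)) (fun i => Lr n s (y i) b)
          (fun z => Ψ (Fin.cons (od s x0) (fun i => od s (y i))) (Fin.cons (T^[s] x0) z)))| ≤ K * ε₁ := by
      intro x0
      refine ih n s k₁ b ε₁ hε hST (fun o z => Ψ (Fin.cons (od s x0) o) (Fin.cons (T^[s] x0) z)) ?_ (fun _ _ => h0 _ _)
        (fun _ _ => h1 _ _) (fun i => a i.succ)
      intro o z i h hr
      simp only
      rw [Fin.cons_update]
      have := hI (Fin.cons (od s x0) o) (Fin.cons (T^[s] x0) z) i.succ h (by rw [Fin.cons_succ]; exact hr)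
      rw [Fin.cons_succ] at this
      exact this
    have hKε : 0 ≤ (K : ℝ) * ε₁ := by positivity
    have s2 := mn_abs (a := a 0) (b := b) hKε s1
    have s3 : mn (a 0) b (fun x0 => exK s K (fun y => mnK K (fun i => An n s (y i) (a i.succ)) (fun i => Lr n s (y i) b)
          (fun z => Ψ (Fin.cons (od s x0) (fun i => od s (y i))) (Fin.cons (T^[s] x0) z)))) =
        exK s K (fun y => mnK K (fun i => An n s (y i) (a i.succ)) (fun i => Lr n s (y i) b)
          (fun z => mn (a 0) b (fun x0 => Ψ (Fin.cons (od s x0) (fun i => od s (y i))) (Fin.cons (T^[s] x0) z)))) := by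
      rw [mn_exK]
      apply exK_congr
      intro y
      rw [mn_mnK]
    have s4 : ∀ (y z : Fin K → ℤ), |mn (a 0) b (fun x0 => Ψ (Fin.cons (od s x0) (fun i => od s (y i))) (Fin.cons (T^[s] x0) z)) -
        ex s (fun y0 => mn (An n s y0 (a 0)) (Lr n s y0 b) (fun z0 => Ψ (Fin.cons (od s y0) (fun i => od s (y i)))
          (Fin.cons z0 z)))| ≤ ε₁ := by
      intro y z
      have h := hST (fun o z0 => Ψ (Fin.cons o (fun i => od s (y i))) (Fin.cons z0 z)) (by
        intro o z0 r hr
        simp only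
        have := hI (Fin.cons o (fun i => od s (y i))) (Fin.cons z0 z) 0 r (by rw [Fin.cons_zero]; exact hr)
        rw [Fin.cons_zero, Fin.update_cons_zero] at this
        exact this) (fun _ _ => h0 _ _) (fun _ _ => h1 _ _) 0 (a 0)
      simp only [Jn_eq, zero_add] at h
      have e : mn (a 0) b (bk s (fun o z0 => Ψ (Fin.cons o (fun i => od s (y i))) (Fin.cons z0 z)) 0) =
          mn (a 0) b (fun x0 => Ψ (Fin.cons (od s x0) (fun i => od s (y i))) (Fin.cons (T^[s] x0) z)) := by
        apply mn_congr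
        intro x0
        unfold bk
        rw [zero_add]
      rw [← e]
      exact h
    have s5 : |exK s K (fun y => mnK K (fun i => An n s (y i) (a i.succ)) (fun i => Lr n s (y i) b)
          (fun z => mn (a 0) b (fun x0 => Ψ (Fin.cons (od s x0) (fun i => od s (y i))) (Fin.cons (T^[s] x0) z)))) -
        exK s K (fun y => mnK K (fun i => An n s (y i) (a i.succ)) (fun i => Lr n s (y i) b)
          (fun z => ex s (fun y0 => mn (An n s y0 (a 0)) (Lr n s y0 b) (fun z0 => Ψ (Fin.cons (od s y0) (fun i => od s (y i)))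
          (Fin.cons z0 z)))))| ≤ ε₁ :=
      exK_abs fun y => mnK_abs hε fun z => s4 y z
    have s6 : exK s K (fun y => mnK K (fun i => An n s (y i) (a i.succ)) (fun i => Lr n s (y i) b)
          (fun z => ex s (fun y0 => mn (An n s y0 (a 0)) (Lr n s y0 b) (fun z0 => Ψ (Fin.cons (od s y0) (fun i => od s (y i)))
          (Fin.cons z0 z))))) =
        exK s (K + 1) (fun y => mnK (K + 1) (fun i => An n s (y i) (a i)) (fun i => Lr n s (y i) b)
          (fun z => Ψ (fun i => od s (y i)) z)) := by
      change _ = ex s (fun y0 => exK s K (fun v => mn (An n s y0 (a 0)) (Lr n s y0 b) (fun z0 => mnK K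
        (fun i => An n s (v i) (a i.succ)) (fun i => Lr n s (v i) b)
          (fun z => Ψ (fun i => od s ((Fin.cons y0 v : Fin (K + 1) → ℤ) i)) (Fin.cons z0 z)))))
      rw [ex_exK]
      apply exK_congr
      intro y
      rw [← ex_mnK (F := fun y0 z => mn (An n s y0 (a 0)) (Lr n s y0 b) (fun z0 => Ψ (Fin.cons (od s y0) (fun i => od s (y i)))
          (Fin.cons z0 z)))]
      apply ex_congr
      intro y0
      rw [← mn_mnK]
      apply mn_congr
      intro z0
      apply mnK_congr
      intro z
      congr 1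
      funext i
      refine Fin.cases ?_ (fun j => ?_) i
      · rfl
      · rfl
    have s7 : mnK (K + 1) a (fun _ => b) (fun x => Ψ (fun i => od s (x i)) (fun i => T^[s] (x i))) =
        mn (a 0) b (fun x0 => mnK K (fun i => a i.succ) (fun _ => b) (fun x => Ψ (Fin.cons (od s x0) (fun i => od s (x i)))
        (Fin.cons (T^[s] x0) (fun i => T^[s] (x i))))) := by
      change mn (a 0) b (fun x0 => mnK K (fun i => a i.succ) (fun _ => b) (fun v =>
        Ψ (fun i => od s ((Fin.cons x0 v : Fin (K + 1) → ℤ) i)) (fun i => T^[s] ((Fin.cons x0 v : Fin (K + 1) → ℤ) i)))) = _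
      apply mn_congr
      intro x0
      apply mnK_congr
      intro v
      congr 1
      · funext i
        refine Fin.cases ?_ (fun j => ?_) i
        · rfl
        · rfl
      · funext i
        refine Fin.cases ?_ (fun j => ?_) i
        · rfl
        · rfl
    rw [s7]
    rw [s6, ← s3] at s5
    have h := abs_sub_le (mn (a 0) b (fun x0 => mnK K (fun i => a i.succ) (fun _ => b) (fun x => Ψ (Fin.cons (od s x0) (fun i => od s (x i)))
        (Fin.cons (T^[s] x0) (fun i => T^[s] (x i)))))) (mn (a 0) b (fun x0 => exK s K (fun y => mnK K (fun i => An n s (y i) (a i.succ)) (fun i => Lr n s (y i) b)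
          (fun z => Ψ (Fin.cons (od s x0) (fun i => od s (y i))) (Fin.cons (T^[s] x0) z)))))
      (exK s (K + 1) (fun y => mnK (K + 1) (fun i => An n s (y i) (a i)) (fun i => Lr n s (y i) b)
          (fun z => Ψ (fun i => od s (y i)) z)))
    push_cast
    linarith

end Pool.Agent.J4H67.KT
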